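import Pool.Agent.Helper784CF.All

set_option autoImplicit false

/-! A continuum of pairwise incomparable free mixing Cantor flows of a countable group which has a
one-ended subgroup in which infinitely many primes are not orders of elements. -/

namespace Pool.Agent.Results.MP_da167d_an.WidthOfFreeMixing

open scoped Classical

/-- an action of `G` on the Cantor space `ℕ → Bool` by homeomorphisms -/
abbrev Act (G : Type) [Group G] : Type := G →* ((ℕ → Bool) ≃ₜ (ℕ → Bool))

/-- the action is free -/
def IsFree {G : Type} [Group G] (a : Act G) : Prop := ∀ g : G, g ≠ 1 → ∀ x, a g x ≠ x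

/-- the action is topologically mixing -/
def IsMixing {G : Type} [Group G] (a : Act G) : Prop :=
  ∀ U V : Set (ℕ → Bool), IsOpen U → IsOpen V → U.Nonempty → V.Nonempty →
    {g : G | (a g '' U) ∩ V = ∅}.Finite

/-- `p_W(f, a)`: the set of the patterns `γ ↦ f (γ • x)`, `γ ∈ W` -/
def patterns {G : Type} [Group G] (a : Act G) (W : Finset G) {k : ℕ}
    (f : (ℕ → Bool) → Fin k) : Set (W → Fin k) :=
  Set.range fun x => fun g : W => f (a g.1 x)

/-- weak containment `b ≼ a` -/
def WeaklyContained {G : Type} [Group G] (b a : Act G) : Prop :=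
  ∀ (W : Finset G) (k : ℕ) (f : (ℕ → Bool) → Fin k), Continuous f →
    ∃ f' : (ℕ → Bool) → Fin k, Continuous f' ∧ patterns b W f = patterns a W f'

/-- adjacency in the (right) Cayley graph with respect to `E`, off the finite set `K` -/
def Adj {G : Type} [Group G] (E K : Finset G) (x y : G) : Prop :=
  x ∉ K ∧ y ∉ K ∧ ∃ e ∈ E, y = x * e ∨ x = y * e

/-- the connected component of `x` in the Cayley graph with the finite set `K` removed -/
def component {G : Type} [Group G] (E K : Finset G) (x : G) : Set G :=
  {y | Relation.ReflTransGen (Adj E K) x y}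

/-- `G` is finitely generated, infinite and one-ended: for some finite generating set, the
complement of every finite set of vertices of the Cayley graph has at most one infinite component -/
def OneEnded (G : Type) [Group G] : Prop :=
  Infinite G ∧ ∃ E : Finset G, Subgroup.closure (E : Set G) = ⊤ ∧
    ∀ (K : Finset G) (x y : G), (component E K x).Infinite → (component E K y).Infinite →
      y ∈ component E K x

open Pool.Agent.Helper784CF

theorem transfer {G : Type} [Group G] (E : Finset G) (p : ℕ) [NeZero p] (b a : Act G)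
    (h : WeaklyContained b a) (hb : PA E p b) : PA E p a := by
  obtain ⟨f, hf, hs⟩ := hb
  let n := Fintype.card (E → ZMod p)
  let e : (E → ZMod p) ≃ Fin n := Fintype.equivFin _
  let W : Finset G := insert 1 (E.image fun g => g⁻¹)
  have he1 : Continuous e := continuous_of_discreteTopology
  have he2 : Continuous e.symm := continuous_of_discreteTopology
  obtain ⟨f', hf', hp⟩ := h W n (fun x => e (f x)) (he1.comp hf)
  refine ⟨fun x => e.symm (f' x), he2.comp hf', fun x => ?_⟩
  have hx : (fun g : W => f' (a g.1 x)) ∈ patterns b W (fun x => e (f x)) := by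
    rw [hp]; exact ⟨x, rfl⟩
  obtain ⟨y, hy⟩ := hx
  have h1 : ∀ g ∈ W, e.symm (f' (a g x)) = f (b g y) := by
    intro g hg
    have := congrFun hy ⟨g, hg⟩
    simp only at this
    rw [← this, Equiv.symm_apply_apply]
  have h2 := h1 1 (Finset.mem_insert_self _ _)
  rw [map_one, map_one] at h2
  change e.symm (f' x) = f y at h2
  have h3 : ∀ g : E, e.symm (f' (a (g.1)⁻¹ x)) = f (b (g.1)⁻¹ y) := fun g =>
    h1 _ (Finset.mem_insert_of_mem (Finset.mem_image_of_mem _ g.2))
  simp only [h2, h3]
  exact hs y

theorem result (G : Type) [Group G] [Countable G] (D : Subgroup G) (hD : OneEnded D)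
    (hq : {q : ℕ | q.Prime ∧ ∀ d ∈ D, orderOf d ≠ q}.Infinite) :
    ∃ a : ℝ → Act G, (∀ r, IsFree (a r) ∧ IsMixing (a r)) ∧
      ∀ r s, r ≠ s → ¬ WeaklyContained (a r) (a s) := by
  obtain ⟨hinf, E, hE, hone⟩ := hD
  have hconn : ConnOff (E.map ⟨Subtype.val, Subtype.val_injective⟩) :=
    specConn2 G D E hE (specConn D E hE ⟨hinf, hone⟩)
  have hcl : Subgroup.closure
      ((E.map ⟨Subtype.val, Subtype.val_injective⟩ : Finset G) : Set G) = D := closure_map_val D E hE
  obtain ⟨a, A, h1, h2, h3, h4⟩ := mainAll (G := G) (E.map ⟨Subtype.val, Subtype.val_injective⟩)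
    (by rw [hcl]; exact Set.infinite_coe_iff.1 hinf) (by rw [hcl]; exact hq)
  refine ⟨a, fun r => ⟨h1 r, h2 hconn r⟩, fun r s hrs hw => hrs (h4 r s fun p hp => ?_)⟩
  have : NeZero p.1 := ⟨p.2.ne_zero⟩
  exact transfer _ p.1 (a r) (a s) hw (h3 r p hp)

end Pool.Agent.Results.MP_da167d_an.WidthOfFreeMixing
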